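import Pool.Agent.H45.SHA.Stmts
import Pool.Agent.H31.ABCR.GCO

/-! # SHA, module GP: the gap principle -/

set_option autoImplicit false

namespace Pool.SHA

open Finset Pool.Agent.H98.ABCR

/-- the coordinate which `q` may divide -/
private def gp_lab (v : ℕ × ℕ) (q : ℕ) : Fin 3 :=
  if q ∣ v.1 then 0 else if q ∣ v.2 then 1 else 2

/-- the exponent of `q` in this coordinate -/
private def gp_ex (v : ℕ × ℕ) (q : ℕ) : ℕ := (coord v (gp_lab v q)).factorization q

private theorem gp_c0 (v : ℕ × ℕ) : coord v 0 = v.1 := rfl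
private theorem gp_c1 (v : ℕ × ℕ) : coord v 1 = v.2 := rfl
private theorem gp_c2 (v : ℕ × ℕ) : coord v 2 = v.1 + v.2 := rfl

private theorem gp_not_both {v : ℕ × ℕ} (hv : IsTri v) {q : ℕ} (hq : q.Prime) (h : q ∣ v.1) :
    ¬ q ∣ v.2 := by
  intro h2
  exact Nat.not_coprime_of_dvd_of_dvd hq.one_lt h h2 hv.2.2

private theorem gp_sum3 {v : ℕ × ℕ} (hv : IsTri v) {q : ℕ} (hq : q.Prime) :
    ∑ s : Fin 3, ((coord v s).factorization q : ℝ) = (gp_ex v q : ℝ) := by
  rw [Fin.sum_univ_three, gp_c0, gp_c1, gp_c2]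
  unfold gp_ex gp_lab
  by_cases h1 : q ∣ v.1
  · have h2 := gp_not_both hv hq h1
    have h3 : ¬ q ∣ v.1 + v.2 := fun h => h2 ((Nat.dvd_add_right h1).1 h)
    rw [Nat.factorization_eq_zero_of_not_dvd h2, Nat.factorization_eq_zero_of_not_dvd h3]
    simp [h1, gp_c0]
  · by_cases h2 : q ∣ v.2
    · have h3 : ¬ q ∣ v.1 + v.2 := fun h => h1 ((Nat.dvd_add_left h2).1 h)
      rw [Nat.factorization_eq_zero_of_not_dvd h1, Nat.factorization_eq_zero_of_not_dvd h3]
      simp [h1, h2, gp_c1]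
    · rw [Nat.factorization_eq_zero_of_not_dvd h1, Nat.factorization_eq_zero_of_not_dvd h2]
      simp [h1, h2, gp_c2]

/-- archimedean mass times height -/
private noncomputable def gp_ar (v : ℕ × ℕ) : ℝ := hh v - Real.log ((min v.1 v.2 : ℕ) : ℝ)

private theorem gp_mass {K : Finset ℕ} (hK : ∀ q ∈ K, q.Prime) {v : ℕ × ℕ} (hv : IsTri v) :
    mass K v = ∑ q ∈ K, (gp_ex v q : ℝ) * Real.log q + gp_ar v := by
  unfold mass gp_ar kl
  rw [Finset.sum_comm]
  congr 1
  apply Finset.sum_congr rfl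
  intro q hq
  rw [← Finset.sum_mul, gp_sum3 hv (hK q hq)]

private theorem gp_log2 {v : ℕ × ℕ} (hv : IsTri v) : Real.log 2 ≤ hh v := by
  unfold hh
  apply Real.log_le_log (by norm_num)
  have h1 := hv.1
  have h2 := hv.2.1
  exact_mod_cast (show 2 ≤ v.1 + v.2 by omega)

private theorem gp_hpos {v : ℕ × ℕ} (hv : IsTri v) : 0 < hh v :=
  lt_of_lt_of_le (Real.log_pos (by norm_num)) (gp_log2 hv)

private theorem gp_ar_nonneg {v : ℕ × ℕ} (hv : IsTri v) : 0 ≤ gp_ar v := by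
  unfold gp_ar hh
  have h1 := hv.1
  have h2 := hv.2.1
  have hm : 0 < min v.1 v.2 := lt_min h1 h2
  have : Real.log ((min v.1 v.2 : ℕ) : ℝ) ≤ Real.log ((v.1 + v.2 : ℕ) : ℝ) := by
    apply Real.log_le_log (by exact_mod_cast hm)
    exact_mod_cast (show min v.1 v.2 ≤ v.1 + v.2 by omega)
  linarith

private theorem gp_term_nonneg (v : ℕ × ℕ) (q : ℕ) : 0 ≤ (gp_ex v q : ℝ) * Real.log q :=
  mul_nonneg (Nat.cast_nonneg _) (Real.log_natCast_nonneg q)

private theorem gp_kl_le {K : Finset ℕ} {n : ℕ} : kl K n ≤ Real.log n := by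
  classical
  rw [Real.log_nat_eq_sum_factorization]
  unfold kl
  rw [Finsupp.sum]
  have h1 : ∑ q ∈ K, (n.factorization q : ℝ) * Real.log q =
      ∑ q ∈ K.filter (fun q => q ∈ n.factorization.support),
        (n.factorization q : ℝ) * Real.log q := by
    symm
    apply Finset.sum_filter_of_ne
    intro q _ hne
    rw [Finsupp.mem_support_iff]
    intro h0
    apply hne
    rw [h0]
    simp
  rw [h1]
  apply Finset.sum_le_sum_of_subset_of_nonneg
  · intro q hq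
    exact (Finset.mem_filter.1 hq).2
  · intro q _ _
    exact mul_nonneg (Nat.cast_nonneg _) (Real.log_natCast_nonneg q)

private theorem gp_mass_le {K : Finset ℕ} {v : ℕ × ℕ} (hv : IsTri v) : mass K v ≤ 3 * hh v := by
  unfold mass
  rw [Fin.sum_univ_three, gp_c0, gp_c1, gp_c2]
  have h0 := gp_kl_le (K := K) (n := v.1)
  have h1 := gp_kl_le (K := K) (n := v.2)
  have h2 := gp_kl_le (K := K) (n := v.1 + v.2)
  have hp1 := hv.1
  have hp2 := hv.2.1
  have hc : Real.log ((v.1 + v.2 : ℕ) : ℝ) = hh v := rfl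
  have ha : Real.log (v.1 : ℝ) ≤ hh v := by
    unfold hh
    apply Real.log_le_log (by exact_mod_cast hp1)
    exact_mod_cast (show v.1 ≤ v.1 + v.2 by omega)
  have hb : Real.log (v.2 : ℝ) ≤ hh v := by
    unfold hh
    apply Real.log_le_log (by exact_mod_cast hp2)
    exact_mod_cast (show v.2 ≤ v.1 + v.2 by omega)
  rcases le_total v.1 v.2 with h | h
  · rw [min_eq_left h]
    linarith
  · rw [min_eq_right h]
    linarith

private theorem gp_dvd {m : ℕ} {s : Fin 3} {v v' : ℕ × ℕ} (h : m ∣ coord v s)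
    (h' : m ∣ coord v' s) : (m : ℤ) ∣ (v.1 : ℤ) * v'.2 - (v'.1 : ℤ) * v.2 := by
  have key : ∀ s : Fin 3, m ∣ coord v s → m ∣ coord v' s →
      (m : ℤ) ∣ (v.1 : ℤ) * v'.2 - (v'.1 : ℤ) * v.2 := by
    intro s
    fin_cases s
    · intro h h'
      have a : (m : ℤ) ∣ (v.1 : ℤ) := by exact_mod_cast (show m ∣ v.1 from h)
      have b : (m : ℤ) ∣ (v'.1 : ℤ) := by exact_mod_cast (show m ∣ v'.1 from h')
      exact dvd_sub (a.mul_right _) (b.mul_right _)
    · intro h h'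
      have a : (m : ℤ) ∣ (v.2 : ℤ) := by exact_mod_cast (show m ∣ v.2 from h)
      have b : (m : ℤ) ∣ (v'.2 : ℤ) := by exact_mod_cast (show m ∣ v'.2 from h')
      exact dvd_sub (b.mul_left _) (a.mul_left _)
    · intro h h'
      have a : (m : ℤ) ∣ (v.1 : ℤ) + (v.2 : ℤ) := by exact_mod_cast (show m ∣ v.1 + v.2 from h)
      have b : (m : ℤ) ∣ (v'.1 : ℤ) + (v'.2 : ℤ) := by
        exact_mod_cast (show m ∣ v'.1 + v'.2 from h')
      have e : (v.1 : ℤ) * v'.2 - (v'.1 : ℤ) * v.2 =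
          ((v.1 : ℤ) + v.2) * v'.2 - ((v'.1 : ℤ) + v'.2) * v.2 := by ring
      rw [e]
      exact dvd_sub (a.mul_right _) (b.mul_right _)
  exact key s h h'

private theorem gp_prod_dvd {K : Finset ℕ} (hK : ∀ q ∈ K, q.Prime) (e : ℕ → ℕ) (z : ℤ)
    (h : ∀ q ∈ K, ((q ^ e q : ℕ) : ℤ) ∣ z) : ((∏ q ∈ K, q ^ e q : ℕ) : ℤ) ∣ z := by
  rw [Nat.cast_prod]
  apply Finset.prod_dvd_of_coprime
  · intro p hp q hq hpq
    have h1 : Nat.Coprime (p ^ e p) (q ^ e q) :=
      Nat.Coprime.pow _ _ ((Nat.coprime_primes (hK p hp) (hK q hq)).2 hpq)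
    exact Nat.isCoprime_iff_coprime.2 h1
  · intro q hq
    exact h q hq

/-- the code: labels -/
private def gp_L (K : Finset ℕ) (v : ℕ × ℕ) : ↥K → Fin 3 := fun q => gp_lab v q

/-- the code: rounded masses -/
private noncomputable def gp_G (n : ℕ) (K : Finset ℕ) (v : ℕ × ℕ) : Option ↥K → ℕ := fun o =>
  match o with
  | none => ⌊(n : ℝ) * gp_ar v / hh v⌋₊
  | some q => ⌊(n : ℝ) * ((gp_ex v q : ℝ) * Real.log (q : ℕ)) / hh v⌋₊

private theorem gp_G_sum {n : ℕ} {K : Finset ℕ} (hK : ∀ q ∈ K, q.Prime) {v : ℕ × ℕ}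
    (hv : IsTri v) : (n : ℝ) * mass K v / hh v =
      (n : ℝ) * gp_ar v / hh v +
        ∑ q : ↥K, (n : ℝ) * ((gp_ex v q : ℝ) * Real.log (q : ℕ)) / hh v := by
  rw [gp_mass hK hv, Finset.sum_coe_sort K
    (fun q => (n : ℝ) * ((gp_ex v q : ℝ) * Real.log (q : ℕ)) / hh v), ← Finset.sum_div,
    ← Finset.mul_sum]
  ring

private theorem gp_G_le {n : ℕ} {K : Finset ℕ} (hK : ∀ q ∈ K, q.Prime) {v : ℕ × ℕ}
    (hv : IsTri v) : ∑ o, gp_G n K v o ≤ 3 * n := by
  have hh0 := gp_hpos hv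
  have h1 : ((∑ o, gp_G n K v o : ℕ) : ℝ) ≤ (n : ℝ) * mass K v / hh v := by
    rw [gp_G_sum hK hv, Fintype.sum_option, Nat.cast_add, Nat.cast_sum]
    apply add_le_add
    · exact Nat.floor_le (div_nonneg (mul_nonneg (Nat.cast_nonneg _) (gp_ar_nonneg hv)) hh0.le)
    · apply Finset.sum_le_sum
      intro q _
      exact Nat.floor_le (div_nonneg (mul_nonneg (Nat.cast_nonneg _) (gp_term_nonneg v q)) hh0.le)
  have h2 : (n : ℝ) * mass K v / hh v ≤ 3 * n := by
    rw [div_le_iff₀ hh0]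
    have := mul_le_mul_of_nonneg_left (gp_mass_le (K := K) hv) (Nat.cast_nonneg n : (0:ℝ) ≤ n)
    linarith
  have h3 := h1.trans h2
  exact_mod_cast h3

private theorem gp_G_ge {n : ℕ} {K : Finset ℕ} (hK : ∀ q ∈ K, q.Prime) {v : ℕ × ℕ}
    (hv : IsTri v) : (n : ℝ) * mass K v / hh v ≤
      (gp_G n K v none : ℝ) + ∑ q : ↥K, (gp_G n K v (some q) : ℝ) + (K.card + 1) := by
  rw [gp_G_sum hK hv]
  have h1 : (n : ℝ) * gp_ar v / hh v ≤ (gp_G n K v none : ℝ) + 1 :=
    (Nat.lt_floor_add_one _).le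
  have h2 : ∑ q : ↥K, (n : ℝ) * ((gp_ex v q : ℝ) * Real.log (q : ℕ)) / hh v ≤
      ∑ q : ↥K, ((gp_G n K v (some q) : ℝ) + 1) := by
    apply Finset.sum_le_sum
    intro q _
    exact (Nat.lt_floor_add_one _).le
  rw [Finset.sum_add_distrib, Finset.sum_const, Finset.card_univ, Fintype.card_coe,
    nsmul_eq_mul, mul_one] at h2
  linarith

private theorem gp_Delta {v v' : ℕ × ℕ}
    (hb : (v.1 ≤ v.2) ↔ (v'.1 ≤ v'.2)) :
    ((v.1 : ℤ) * v'.2 - (v'.1 : ℤ) * v.2).natAbs ≤ min v.1 v.2 * (v'.1 + v'.2) ∨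
      ((v.1 : ℤ) * v'.2 - (v'.1 : ℤ) * v.2).natAbs ≤ min v'.1 v'.2 * (v.1 + v.2) := by
  have h0 : ((v.1 : ℤ) * v'.2 - (v'.1 : ℤ) * v.2).natAbs ≤ v.1 * v'.2 ∨
      ((v.1 : ℤ) * v'.2 - (v'.1 : ℤ) * v.2).natAbs ≤ v'.1 * v.2 := by
    have e1 : (v.1 : ℤ) * v'.2 = ((v.1 * v'.2 : ℕ) : ℤ) := by push_cast; ring
    have e2 : (v'.1 : ℤ) * v.2 = ((v'.1 * v.2 : ℕ) : ℤ) := by push_cast; ring
    rw [e1, e2]
    generalize v.1 * v'.2 = x
    generalize v'.1 * v.2 = y
    omega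
  by_cases h : v.1 ≤ v.2
  · have h' := hb.1 h
    rw [min_eq_left h, min_eq_left h']
    rcases h0 with h0 | h0
    · left
      exact h0.trans (Nat.mul_le_mul_left _ (by omega))
    · right
      exact h0.trans (Nat.mul_le_mul_left _ (by omega))
  · have h' : ¬ v'.1 ≤ v'.2 := fun hc => h (hb.2 hc)
    rw [min_eq_right (by omega), min_eq_right (by omega)]
    rcases h0 with h0 | h0
    · right
      rw [mul_comm v'.2]
      exact h0.trans (Nat.mul_le_mul_right _ (by omega))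
    · left
      rw [mul_comm v.2]
      exact h0.trans (Nat.mul_le_mul_right _ (by omega))

private theorem gp_eq {v v' : ℕ × ℕ} (hv : IsTri v) (hv' : IsTri v')
    (h : (v.1 : ℤ) * v'.2 - (v'.1 : ℤ) * v.2 = 0) : v = v' := by
  have h1 : v.1 * v'.2 = v'.1 * v.2 := by
    have : (v.1 : ℤ) * v'.2 = (v'.1 : ℤ) * v.2 := by linarith
    exact_mod_cast this
  have d1 : v.1 ∣ v'.1 := by
    have : v.1 ∣ v'.1 * v.2 := ⟨v'.2, h1.symm⟩
    exact hv.2.2.dvd_of_dvd_mul_right this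
  have d2 : v'.1 ∣ v.1 := by
    have : v'.1 ∣ v.1 * v'.2 := ⟨v.2, h1⟩
    exact hv'.2.2.dvd_of_dvd_mul_right this
  have e1 : v.1 = v'.1 := Nat.dvd_antisymm d1 d2
  have e2 : v.2 = v'.2 := by
    rw [e1] at h1
    exact (Nat.eq_of_mul_eq_mul_left hv'.1 h1).symm
  exact Prod.ext e1 e2

private theorem gp_cell {δ : ℝ} (hδ : 0 < δ) {n : ℕ} (hn : 0 < n) {K : Finset ℕ}
    (hK : ∀ q ∈ K, q.Prime) (hnK : ((K.card : ℝ) + 1) ≤ n * (δ / 4)) {v v' : ℕ × ℕ}
    (hv : IsTri v) (hv' : IsTri v') (hm : (2 + δ) * hh v ≤ mass K v)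
    (hL : gp_L K v = gp_L K v') (hG : gp_G n K v = gp_G n K v')
    (hb : (v.1 ≤ v.2) ↔ (v'.1 ≤ v'.2)) (hle : hh v ≤ hh v') (hne : v ≠ v') :
    (1 + δ / 4) * hh v < hh v' := by
  by_contra hcon
  push Not at hcon
  have hp := gp_hpos hv
  have hp' := gp_hpos hv'
  have hn0 : (0 : ℝ) < n := by exact_mod_cast hn
  set Δ : ℤ := (v.1 : ℤ) * v'.2 - (v'.1 : ℤ) * v.2 with hΔ
  have hΔ0 : Δ ≠ 0 := fun h => hne (gp_eq hv hv' h)
  -- the product divides
  set e : ℕ → ℕ := fun q => min (gp_ex v q) (gp_ex v' q) with he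
  have hdvd : ((∏ q ∈ K, q ^ e q : ℕ) : ℤ) ∣ Δ := by
    apply gp_prod_dvd hK
    intro q hq
    have hl : gp_lab v q = gp_lab v' q := congrFun hL ⟨q, hq⟩
    apply gp_dvd (s := gp_lab v q)
    · exact (pow_dvd_pow q (min_le_left _ _)).trans (Nat.ordProj_dvd _ q)
    · rw [hl]
      exact (pow_dvd_pow q (min_le_right _ _)).trans (Nat.ordProj_dvd _ q)
  have hPle : (∏ q ∈ K, q ^ e q) ≤ Δ.natAbs :=
    Nat.le_of_dvd (Int.natAbs_pos.2 hΔ0) (Int.natCast_dvd.1 hdvd)
  have hPpos : 0 < ∏ q ∈ K, q ^ e q :=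
    Finset.prod_pos fun q hq => pow_pos (hK q hq).pos _
  have hlogP : ∑ q ∈ K, (e q : ℝ) * Real.log q ≤ Real.log (Δ.natAbs : ℝ) := by
    have h1 : Real.log ((∏ q ∈ K, q ^ e q : ℕ) : ℝ) = ∑ q ∈ K, (e q : ℝ) * Real.log q := by
      rw [Nat.cast_prod, Real.log_prod]
      · apply Finset.sum_congr rfl
        intro q _
        rw [Nat.cast_pow, Real.log_pow]
      · intro q hq
        have := (hK q hq).pos
        positivity
    rw [← h1]
    apply Real.log_le_log (by exact_mod_cast hPpos)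
    exact_mod_cast hPle
  -- the size of Delta
  set g0 : ℝ := (gp_G n K v none : ℝ) with hg0
  have hg0' : g0 = (gp_G n K v' none : ℝ) := by rw [hg0, hG]
  have har : g0 * hh v ≤ n * gp_ar v := by
    have h1 : g0 ≤ (n : ℝ) * gp_ar v / hh v :=
      Nat.floor_le (div_nonneg (mul_nonneg (Nat.cast_nonneg _) (gp_ar_nonneg hv)) hp.le)
    rwa [le_div_iff₀ hp] at h1
  have har' : g0 * hh v' ≤ n * gp_ar v' := by
    have h1 : g0 ≤ (n : ℝ) * gp_ar v' / hh v' := by
      rw [hg0']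
      exact Nat.floor_le
        (div_nonneg (mul_nonneg (Nat.cast_nonneg _) (gp_ar_nonneg hv')) hp'.le)
    rwa [le_div_iff₀ hp'] at h1
  have hg00 : 0 ≤ g0 := Nat.cast_nonneg _
  have hm1 : 0 < min v.1 v.2 := lt_min hv.1 hv.2.1
  have hm1' : 0 < min v'.1 v'.2 := lt_min hv'.1 hv'.2.1
  have hc1 : 0 < v.1 + v.2 := by have := hv.1; omega
  have hc1' : 0 < v'.1 + v'.2 := by have := hv'.1; omega
  have hlogD : n * Real.log (Δ.natAbs : ℝ) ≤ n * (hh v + hh v') - g0 * hh v := by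
    have hDpos : (0 : ℝ) < (Δ.natAbs : ℝ) := by exact_mod_cast Int.natAbs_pos.2 hΔ0
    rcases gp_Delta hb with h | h
    · have h1 : Real.log (Δ.natAbs : ℝ) ≤
          Real.log ((min v.1 v.2 : ℕ) : ℝ) + hh v' := by
        unfold hh
        rw [← Real.log_mul (by positivity) (by positivity)]
        apply Real.log_le_log hDpos
        have hc : (Δ.natAbs : ℝ) ≤ ((min v.1 v.2 * (v'.1 + v'.2) : ℕ) : ℝ) := Nat.cast_le.2 h
        rwa [Nat.cast_mul] at hc
      have h2 : Real.log ((min v.1 v.2 : ℕ) : ℝ) = hh v - gp_ar v := by unfold gp_ar; ring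
      rw [h2] at h1
      have h3 := mul_le_mul_of_nonneg_left h1 hn0.le
      nlinarith
    · have h1 : Real.log (Δ.natAbs : ℝ) ≤
          Real.log ((min v'.1 v'.2 : ℕ) : ℝ) + hh v := by
        unfold hh
        rw [← Real.log_mul (by positivity) (by positivity)]
        apply Real.log_le_log hDpos
        have hc : (Δ.natAbs : ℝ) ≤ ((min v'.1 v'.2 * (v.1 + v.2) : ℕ) : ℝ) := Nat.cast_le.2 h
        rwa [Nat.cast_mul] at hc
      have h2 : Real.log ((min v'.1 v'.2 : ℕ) : ℝ) = hh v' - gp_ar v' := by unfold gp_ar; ring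
      rw [h2] at h1
      have h3 := mul_le_mul_of_nonneg_left h1 hn0.le
      have h4 := mul_le_mul_of_nonneg_left hle hg00
      nlinarith
  -- lower bound of the sum
  have hq : ∀ q : ↥K, (gp_G n K v (some q) : ℝ) * hh v ≤
      n * ((e q : ℝ) * Real.log (q : ℕ)) := by
    intro q
    have h1 : (gp_G n K v (some q) : ℝ) * hh v ≤ n * ((gp_ex v q : ℝ) * Real.log (q : ℕ)) := by
      have : (gp_G n K v (some q) : ℝ) ≤ (n : ℝ) * ((gp_ex v q : ℝ) * Real.log (q : ℕ)) / hh v :=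
        Nat.floor_le (div_nonneg (mul_nonneg (Nat.cast_nonneg _) (gp_term_nonneg v q)) hp.le)
      rwa [le_div_iff₀ hp] at this
    have h2 : (gp_G n K v (some q) : ℝ) * hh v' ≤
        n * ((gp_ex v' q : ℝ) * Real.log (q : ℕ)) := by
      have : (gp_G n K v (some q) : ℝ) ≤
          (n : ℝ) * ((gp_ex v' q : ℝ) * Real.log (q : ℕ)) / hh v' := by
        rw [hG]
        exact Nat.floor_le
          (div_nonneg (mul_nonneg (Nat.cast_nonneg _) (gp_term_nonneg v' q)) hp'.le)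
      rwa [le_div_iff₀ hp'] at this
    have h3 : (gp_G n K v (some q) : ℝ) * hh v ≤ (gp_G n K v (some q) : ℝ) * hh v' :=
      mul_le_mul_of_nonneg_left hle (Nat.cast_nonneg _)
    rcases le_total (gp_ex v q) (gp_ex v' q) with h | h
    · have : e q = gp_ex v q := min_eq_left h
      rw [this]
      exact h1
    · have : e q = gp_ex v' q := min_eq_right h
      rw [this]
      exact h3.trans h2
  have hsum : (∑ q : ↥K, (gp_G n K v (some q) : ℝ)) * hh v ≤
      n * ∑ q ∈ K, (e q : ℝ) * Real.log q := by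
    rw [Finset.sum_mul, Finset.mul_sum, ← Finset.sum_coe_sort K
      (fun q => (n : ℝ) * ((e q : ℝ) * Real.log (q : ℕ)))]
    exact Finset.sum_le_sum fun q _ => hq q
  have hge := gp_G_ge (n := n) hK hv
  have hge2 : (n : ℝ) * (2 + δ) ≤ (n : ℝ) * mass K v / hh v := by
    rw [le_div_iff₀ hp]
    have := mul_le_mul_of_nonneg_left hm hn0.le
    linarith
  have h5 : n * ∑ q ∈ K, (e q : ℝ) * Real.log q ≤ n * Real.log (Δ.natAbs : ℝ) :=
    mul_le_mul_of_nonneg_left hlogP hn0.le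
  -- combine
  set S : ℝ := ∑ q : ↥K, (gp_G n K v (some q) : ℝ) with hS
  have h6 : (g0 + S) * hh v ≤ n * (hh v + hh v') := by
    have : (g0 + S) * hh v = g0 * hh v + S * hh v := by ring
    linarith
  have h7 : (n : ℝ) * (2 + δ) - n * (δ / 4) ≤ g0 + S := by linarith
  have h8 := mul_le_mul_of_nonneg_right h7 hp.le
  have h9 : n * (hh v + hh v') ≤ n * ((2 + δ / 4) * hh v) := by
    apply mul_le_mul_of_nonneg_left _ hn0.le
    linarith
  have h10 : 0 < (n : ℝ) * (δ / 2 * hh v) := by positivity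
  nlinarith

private theorem gp_pigeon {δ : ℝ} (hδ : 0 < δ) {H : ℝ} (hH : 1 ≤ H) (E : Finset (ℕ × ℕ))
    (h1 : ∀ v ∈ E, IsTri v ∧ hh v ≤ H)
    (h2 : ∀ v ∈ E, ∀ v' ∈ E, v ≠ v' → hh v ≤ hh v' → (1 + δ / 4) * hh v < hh v') :
    (E.card : ℝ) ≤ (1 + Real.log H) * (1 + 1 / Real.log (1 + δ / 4)) := by
  set t : ℝ := Real.log (1 + δ / 4) with ht
  have ht0 : 0 < t := Real.log_pos (by linarith)
  have hl2 : 0 < Real.log 2 := Real.log_pos (by norm_num)
  set f : ℕ × ℕ → ℕ := fun v => ⌊Real.log (hh v / Real.log 2) / t⌋₊ with hf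
  set N : ℕ := ⌊Real.log (H / Real.log 2) / t⌋₊ with hN
  have hmaps : ∀ v ∈ E, f v ∈ range (N + 1) := by
    intro v hv
    rw [Finset.mem_range, Nat.lt_add_one_iff]
    apply Nat.floor_mono
    apply div_le_div_of_nonneg_right _ ht0.le
    apply Real.log_le_log (div_pos (gp_hpos (h1 v hv).1) hl2)
    exact div_le_div_of_nonneg_right (h1 v hv).2 hl2.le
  have key : ∀ v ∈ E, ∀ v' ∈ E, v ≠ v' → hh v ≤ hh v' → f v < f v' := by
    intro v hv v' hv' hne hle
    have h3 := h2 v hv v' hv' hne hle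
    have hp := gp_hpos (h1 v hv).1
    have hp' := gp_hpos (h1 v' hv').1
    have h4 : Real.log (hh v / Real.log 2) / t + 1 ≤ Real.log (hh v' / Real.log 2) / t := by
      rw [div_add_one ht0.ne', ht, ← Real.log_mul (div_pos hp hl2).ne' (by positivity)]
      apply div_le_div_of_nonneg_right _ ht0.le
      apply Real.log_le_log (by positivity)
      rw [div_mul_eq_mul_div]
      apply div_le_div_of_nonneg_right _ hl2.le
      linarith
    have h5 : 0 ≤ Real.log (hh v / Real.log 2) / t := by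
      apply div_nonneg _ ht0.le
      apply Real.log_nonneg
      rw [le_div_iff₀ hl2, one_mul]
      exact gp_log2 (h1 v hv).1
    have h6 : f v + 1 ≤ f v' := by
      rw [hf]
      simp only
      rw [← Nat.floor_add_one h5]
      exact Nat.floor_mono h4
    omega
  have hinj : Set.InjOn f (E : Set (ℕ × ℕ)) := by
    intro v hv v' hv' hfe
    by_contra hne
    rcases le_total (hh v) (hh v') with h | h
    · exact absurd hfe (key v hv v' hv' hne h).ne
    · exact absurd hfe (key v' hv' v hv (Ne.symm hne) h).ne'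
  have hcard : E.card ≤ N + 1 := by
    have := Finset.card_le_card_of_injOn f hmaps hinj
    rwa [Finset.card_range] at this
  have hlogH : 0 ≤ Real.log H := Real.log_nonneg hH
  have h7 : Real.log (H / Real.log 2) ≤ Real.log H + 1 := by
    have h8 : Real.log (H / Real.log 2) = Real.log H - Real.log (Real.log 2) :=
      Real.log_div (by linarith) hl2.ne'
    rw [h8]
    have h9 : Real.log (1 / 2) ≤ Real.log (Real.log 2) := by
      apply Real.log_le_log (by norm_num)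
      have := Real.log_two_gt_d9
      linarith
    have h10 : Real.log (1 / 2 : ℝ) = -Real.log 2 := by
      rw [one_div, Real.log_inv]
    have h11 := Real.log_two_lt_d9
    linarith
  have h12 : (N : ℝ) ≤ Real.log (H / Real.log 2) / t := by
    apply Nat.floor_le
    apply div_nonneg _ ht0.le
    apply Real.log_nonneg
    rw [le_div_iff₀ hl2]
    have := Real.log_two_lt_d9
    linarith
  have h13 : (N : ℝ) ≤ (Real.log H + 1) / t :=
    h12.trans (div_le_div_of_nonneg_right h7 ht0.le)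
  have h14 : (E.card : ℝ) ≤ N + 1 := by exact_mod_cast hcard
  have h15 : (1 + Real.log H) * (1 + 1 / t) = 1 + Real.log H + (Real.log H + 1) / t := by
    field_simp
    ring
  rw [h15]
  linarith

theorem gp_thm : S_GP := by
  classical
  intro δ hδ hδ1
  set c0 : ℕ := ⌈4 / δ⌉₊ with hc0
  set t : ℝ := Real.log (1 + δ / 4) with ht
  have ht0 : 0 < t := Real.log_pos (by linarith)
  have hD : 1 ≤ 1 + 1 / t := by
    have : 0 < 1 / t := by positivity
    linarith
  refine ⟨12 * 8 ^ c0 * (1 + 1 / t), ?_, ?_⟩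
  · have h8 : (1 : ℝ) ≤ 8 ^ c0 := one_le_pow₀ (by norm_num)
    nlinarith
  intro H K F hH hK hF
  set n : ℕ := c0 * (K.card + 1) with hn
  have hc0pos : 0 < c0 := Nat.ceil_pos.2 (by positivity)
  have hnpos : 0 < n := Nat.mul_pos hc0pos (by omega)
  have hnK : ((K.card : ℝ) + 1) ≤ n * (δ / 4) := by
    have h1 : 4 / δ ≤ (c0 : ℝ) := Nat.le_ceil _
    have h2 : 1 ≤ (c0 : ℝ) * (δ / 4) := by
      rw [div_le_iff₀ hδ] at h1
      linarith
    have h3 : (0 : ℝ) ≤ (K.card : ℝ) + 1 := by positivity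
    have h4 := mul_le_mul_of_nonneg_left h2 h3
    rw [hn]
    push_cast
    linarith
  -- the code
  set cod : ℕ × ℕ → (↥K → Fin 3) × (Option ↥K → ℕ) × Bool :=
    fun v => (gp_L K v, gp_G n K v, decide (v.1 ≤ v.2)) with hcod
  set Gs : Finset (Option ↥K → ℕ) := F.image (gp_G n K) with hGs
  have hGcard : Gs.card ≤ 2 ^ (3 * n + (K.card + 1)) := by
    have := gco_thm (Option ↥K) (3 * n) Gs (by
      intro g hg
      rw [hGs, Finset.mem_image] at hg
      obtain ⟨v, hv, rfl⟩ := hg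
      exact gp_G_le hK (hF v hv).1)
    rwa [Fintype.card_option, Fintype.card_coe] at this
  have himg : (F.image cod).card ≤ 3 ^ K.card * (2 ^ (3 * n + (K.card + 1)) * 2) := by
    have hsub : F.image cod ⊆ (univ : Finset (↥K → Fin 3)) ×ˢ (Gs ×ˢ (univ : Finset Bool)) := by
      intro x hx
      rw [Finset.mem_image] at hx
      obtain ⟨v, hv, rfl⟩ := hx
      rw [Finset.mem_product, Finset.mem_product]
      exact ⟨Finset.mem_univ _, Finset.mem_image_of_mem _ hv, Finset.mem_univ _⟩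
    refine (Finset.card_le_card hsub).trans ?_
    rw [Finset.card_product, Finset.card_product, Finset.card_univ, Fintype.card_fun,
      Fintype.card_fin, Fintype.card_coe, Finset.card_univ, Fintype.card_bool]
    exact Nat.mul_le_mul_left _ (Nat.mul_le_mul_right _ hGcard)
  -- the cells
  have hlogH : 0 ≤ Real.log H := Real.log_nonneg hH
  set bd : ℝ := (1 + Real.log H) * (1 + 1 / t) with hbd
  have hbd0 : 0 ≤ bd := by positivity
  have hcell : ∀ x ∈ F.image cod, (((F.filter (fun v => cod v = x)).card : ℕ) : ℝ) ≤ bd := by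
    intro x _
    apply gp_pigeon hδ hH
    · intro v hv
      exact ⟨(hF v (Finset.mem_filter.1 hv).1).1, (hF v (Finset.mem_filter.1 hv).1).2.1⟩
    · intro v hv v' hv' hne hle
      obtain ⟨hvF, hvx⟩ := Finset.mem_filter.1 hv
      obtain ⟨hvF', hvx'⟩ := Finset.mem_filter.1 hv'
      have hc : cod v = cod v' := hvx.trans hvx'.symm
      rw [hcod] at hc
      simp only [Prod.mk.injEq] at hc
      obtain ⟨hL, hG, hb⟩ := hc
      apply gp_cell hδ hnpos hK hnK (hF v hvF).1 (hF v' hvF').1 (hF v hvF).2.2 hL hG _ hle hne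
      have := decide_eq_decide.1 hb
      exact this
  have htot : (F.card : ℝ) ≤ ((F.image cod).card : ℝ) * bd := by
    rw [Finset.card_eq_sum_card_image cod F, Nat.cast_sum]
    calc ∑ x ∈ F.image cod, (((F.filter (fun v => cod v = x)).card : ℕ) : ℝ)
        ≤ ∑ _x ∈ F.image cod, bd := Finset.sum_le_sum hcell
      _ = ((F.image cod).card : ℝ) * bd := by rw [Finset.sum_const, nsmul_eq_mul]
  have himgR : ((F.image cod).card : ℝ) ≤ (12 * 8 ^ c0 : ℝ) ^ (K.card + 1) := by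
    have h1 : ((F.image cod).card : ℝ) ≤
        ((3 ^ K.card * (2 ^ (3 * n + (K.card + 1)) * 2) : ℕ) : ℝ) := by exact_mod_cast himg
    refine h1.trans ?_
    push_cast
    have e1 : (12 * 8 ^ c0 : ℝ) ^ (K.card + 1) =
        3 ^ (K.card + 1) * (2 ^ (3 * n + (K.card + 1)) * 2 ^ (K.card + 1)) := by
      rw [hn, show (12 : ℝ) = 3 * 2 * 2 by norm_num, show (8 : ℝ) = 2 ^ 3 by norm_num]
      rw [mul_pow, mul_pow, mul_pow, ← pow_mul, ← pow_mul, pow_add (2 : ℝ)]
      ring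
    rw [e1]
    have a1 : (3 : ℝ) ^ K.card ≤ 3 ^ (K.card + 1) := pow_le_pow_right₀ (by norm_num) (by omega)
    have a2 : (2 : ℝ) ≤ 2 ^ (K.card + 1) := by
      calc (2 : ℝ) = 2 ^ 1 := by norm_num
        _ ≤ 2 ^ (K.card + 1) := pow_le_pow_right₀ (by norm_num) (by omega)
    apply mul_le_mul a1 _ (by positivity) (by positivity)
    exact mul_le_mul_of_nonneg_left a2 (by positivity)
  have hfin : (F.card : ℝ) ≤ (12 * 8 ^ c0 : ℝ) ^ (K.card + 1) * bd :=
    htot.trans (mul_le_mul_of_nonneg_right himgR hbd0)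
  refine hfin.trans ?_
  have e2 : (12 * 8 ^ c0 * (1 + 1 / t) : ℝ) ^ (K.card + 1) =
      (12 * 8 ^ c0 : ℝ) ^ (K.card + 1) * (1 + 1 / t) ^ (K.card + 1) := mul_pow _ _ _
  rw [hbd, e2]
  have hDp : 1 + 1 / t ≤ (1 + 1 / t) ^ (K.card + 1) := by
    calc 1 + 1 / t = (1 + 1 / t) ^ 1 := (pow_one _).symm
      _ ≤ (1 + 1 / t) ^ (K.card + 1) := pow_le_pow_right₀ hD (by omega)
  calc (12 * 8 ^ c0 : ℝ) ^ (K.card + 1) * ((1 + Real.log H) * (1 + 1 / t))
      = (12 * 8 ^ c0 : ℝ) ^ (K.card + 1) * (1 + 1 / t) * (1 + Real.log H) := by ring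
    _ ≤ (12 * 8 ^ c0 : ℝ) ^ (K.card + 1) * (1 + 1 / t) ^ (K.card + 1) * (1 + Real.log H) := by
        apply mul_le_mul_of_nonneg_right _ (by linarith)
        exact mul_le_mul_of_nonneg_left hDp (by positivity)

end Pool.SHA
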